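import Pool.Agent.Helper47.ME.Goals
import Pool.Agent.Helper60.MK.G1

/-! Packet ME-G1X (project ME of helper47, MP_6fb600_gt): two cones and a third disjoint set. -/

open MeasureTheory Set Filter Topology
open scoped ENNReal
open Pool.Agent.Helper47.AQ Pool.Agent.Helper72.MK

noncomputable section

namespace Pool.Agent.Helper34.ME

open Pool.Agent.Helper60.MK (sec_closed sec_symm half_real meas_pos ins0 ins1)
open Pool.Agent.Helper47.ME (G1XStmt)

theorem g1x (h1 : CONEStmt) (h2 : HALFStmt) : G1XStmt := by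
  intro M hB hsym c hc h0 h1' N hN hNQ hdis0 hdis1
  have hcl : IsClosed M := hB.comp.isClosed
  have hfin : volume M ≠ ⊤ := hB.comp.measure_ne_top
  have hconv := hB.conv
  set Q : Set (Fin 3 → ℝ) := M ∩ {x | 0 < x 0 ∧ 0 < x 1} with hQdef
  set D : Set (Fin 3 → ℝ) := {x | c 0 * x 1 < c 1 * x 0} with hD
  have hDm : MeasurableSet D := by
    refine measurableSet_lt ?_ ?_ <;> fun_prop
  have hQf : volume Q ≠ ⊤ := ne_top_of_le_ne_top hfin (measure_mono inter_subset_left)
  have hQNf : volume (Q \ N) ≠ ⊤ := ne_top_of_le_ne_top hQf (measure_mono sdiff_subset)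
  have hNf : volume N ≠ ⊤ := ne_top_of_le_ne_top hQf (measure_mono hNQ)
  set H1 : Set (Fin 2 → ℝ) := sec 1 M ∩ {y | 0 < y 0} with hH1
  set H0 : Set (Fin 2 → ℝ) := sec 0 M ∩ {y | 0 < y 0} with hH0
  have m1 : MeasurableSet H1 := (sec_closed hcl 1).measurableSet.inter (meas_pos 0)
  have m0 : MeasurableSet H0 := (sec_closed hcl 0).measurableSet.inter (meas_pos 0)
  have k1 : ENNReal.ofReal (|c 1| / 3) * volume H1 ≤ volume ((Q \ N) ∩ D) := by
    rcases h1'.eq_or_lt with h | h
    · rw [← h]; simp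
    · refine (h1 1 H1 m1 c).trans (measure_mono ?_)
      intro x hx
      rw [Set.mem_ofPred_eq] at hx
      obtain ⟨y, hy, t, ht0, ht1, rfl⟩ := hx
      obtain ⟨e0, e1, e2⟩ := ins1 y
      have hyM : ((1 : Fin 3).insertNth (0 : ℝ) y : Fin 3 → ℝ) ∈ M := hy.1
      have hy0 : 0 < y 0 := hy.2
      have hM : (1 - t) • ((1 : Fin 3).insertNth (0 : ℝ) y : Fin 3 → ℝ) + t • c ∈ M :=
        hconv hyM hc (by linarith) ht0.le (by ring)
      have p1 : 0 < (1 - t) * y 0 := mul_pos (by linarith) hy0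
      have p2 : 0 ≤ t * c 0 := mul_nonneg ht0.le h0
      have p3 : 0 < t * c 1 := mul_pos ht0 h
      refine ⟨⟨⟨hM, ?_, ?_⟩, ?_⟩, ?_⟩
      · simp only [Pi.add_apply, Pi.smul_apply, smul_eq_mul, e0]
        linarith
      · simp only [Pi.add_apply, Pi.smul_apply, smul_eq_mul, e1]
        linarith
      · intro hxN
        exact hdis1 h _ hxN _ hyM e1 t ht0 ht1 rfl
      · rw [hD, Set.mem_ofPred_eq]
        simp only [Pi.add_apply, Pi.smul_apply, smul_eq_mul, e0, e1]
        nlinarith [mul_pos h p1]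
  have k0 : ENNReal.ofReal (|c 0| / 3) * volume H0 ≤ volume ((Q \ N) \ D) := by
    rcases h0.eq_or_lt with h | h
    · rw [← h]; simp
    · refine (h1 0 H0 m0 c).trans (measure_mono ?_)
      intro x hx
      rw [Set.mem_ofPred_eq] at hx
      obtain ⟨y, hy, t, ht0, ht1, rfl⟩ := hx
      obtain ⟨e0, e1, e2⟩ := ins0 y
      have hyM : ((0 : Fin 3).insertNth (0 : ℝ) y : Fin 3 → ℝ) ∈ M := hy.1
      have hy0 : 0 < y 0 := hy.2
      have hM : (1 - t) • ((0 : Fin 3).insertNth (0 : ℝ) y : Fin 3 → ℝ) + t • c ∈ M :=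
        hconv hyM hc (by linarith) ht0.le (by ring)
      have p1 : 0 < (1 - t) * y 0 := mul_pos (by linarith) hy0
      have p2 : 0 ≤ t * c 1 := mul_nonneg ht0.le h1'
      have p3 : 0 < t * c 0 := mul_pos ht0 h
      refine ⟨⟨⟨hM, ?_, ?_⟩, ?_⟩, ?_⟩
      · simp only [Pi.add_apply, Pi.smul_apply, smul_eq_mul, e0]
        linarith
      · simp only [Pi.add_apply, Pi.smul_apply, smul_eq_mul, e1]
        linarith
      · intro hxN
        exact hdis0 h _ hxN _ hyM e0 t ht0 ht1 rfl
      · rw [hD, Set.mem_ofPred_eq]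
        simp only [Pi.add_apply, Pi.smul_apply, smul_eq_mul, e0, e1]
        nlinarith [mul_pos h p1]
  have ksum : ENNReal.ofReal (|c 1| / 3) * volume H1 + ENNReal.ofReal (|c 0| / 3) * volume H0 ≤
      volume (Q \ N) := by
    rw [← measure_inter_add_sdiff (Q \ N) hDm]
    exact add_le_add k1 k0
  have f1 : ENNReal.ofReal (|c 1| / 3) * volume H1 ≠ ⊤ :=
    ne_top_of_le_ne_top hQNf (le_trans le_self_add ksum)
  have f0 : ENNReal.ofReal (|c 0| / 3) * volume H0 ≠ ⊤ :=
    ne_top_of_le_ne_top hQNf (le_trans le_add_self ksum)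
  have hsplit : volume Q = volume N + volume (Q \ N) := by
    have h := measure_inter_add_sdiff (μ := volume) Q hN
    rw [Set.inter_eq_self_of_subset_right hNQ] at h
    exact h.symm
  have hsr : (volume Q).toReal = (volume N).toReal + (volume (Q \ N)).toReal := by
    rw [hsplit, ENNReal.toReal_add hNf hQNf]
  have kr := ENNReal.toReal_mono hQNf ksum
  rw [ENNReal.toReal_add f1 f0, ENNReal.toReal_mul, ENNReal.toReal_mul,
    ENNReal.toReal_ofReal (by positivity), ENNReal.toReal_ofReal (by positivity),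
    half_real h2 (sec_closed hcl 1).measurableSet (sec_symm hsym 1) 0,
    half_real h2 (sec_closed hcl 0).measurableSet (sec_symm hsym 0) 0,
    abs_of_nonneg h0, abs_of_nonneg h1'] at kr
  rw [hsr]
  linarith

end Pool.Agent.Helper34.ME
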